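import Pool.Agent.Y110.FJ.Stm6

/-!
# The local criterion for amalgamated products

Author helper917 (job of helper110).
-/

set_option autoImplicit false

namespace Pool.Agent.Y917.FJ

open Pool.Agent.Y110.FJ
open Pool.Agent.Y462.SS (Closed)

section piece

variable {G : Type} [Group G]

/-- the relators -/
def rel (L₁ L₂ : Subgroup G) (D : Set G) : Set (Monoid.Coprod L₁ L₂) :=
  {r | ∃ (x : L₁) (y : L₂), (x : G) ∈ D ∧ (x : G) = y ∧
    r = Monoid.Coprod.inl x * (Monoid.Coprod.inr y)⁻¹}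

/-- the amalgamated product of two subgroups over the elements of `D` -/
abbrev Gi (L₁ L₂ : Subgroup G) (D : Set G) : Type :=
  Monoid.Coprod L₁ L₂ ⧸ Subgroup.normalClosure (rel L₁ L₂ D)

variable {L₁ L₂ : Subgroup G} {D : Set G}

/-- the first inclusion -/
def il (L₁ L₂ : Subgroup G) (D : Set G) : L₁ →* Gi L₁ L₂ D :=
  (QuotientGroup.mk' (Subgroup.normalClosure (rel L₁ L₂ D))).comp Monoid.Coprod.inl

/-- the second inclusion -/
def ir (L₁ L₂ : Subgroup G) (D : Set G) : L₂ →* Gi L₁ L₂ D :=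
  (QuotientGroup.mk' (Subgroup.normalClosure (rel L₁ L₂ D))).comp Monoid.Coprod.inr

theorem il_eq_ir (x : L₁) (y : L₂) (hx : (x : G) ∈ D) (h : (x : G) = y) :
    il L₁ L₂ D x = ir L₁ L₂ D y := by
  have h1 : (QuotientGroup.mk' (Subgroup.normalClosure (rel L₁ L₂ D)))
      (Monoid.Coprod.inl x * (Monoid.Coprod.inr y)⁻¹) = 1 := by
    rw [QuotientGroup.mk'_apply, QuotientGroup.eq_one_iff]
    exact Subgroup.subset_normalClosure ⟨x, y, hx, h, rfl⟩
  rw [map_mul, map_inv, mul_inv_eq_one] at h1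
  exact h1

/-- homomorphisms from the amalgamated product -/
def lft {H : Type} [Group H] (f : L₁ →* H) (g : L₂ →* H)
    (h : ∀ (x : L₁) (y : L₂), (x : G) ∈ D → (x : G) = y → f x = g y) : Gi L₁ L₂ D →* H :=
  QuotientGroup.lift _ (Monoid.Coprod.lift f g) (by
    have h1 : Subgroup.normalClosure (rel L₁ L₂ D) ≤ (Monoid.Coprod.lift f g).ker := by
      apply Subgroup.normalClosure_le_normal
      rintro r ⟨x, y, hx, hxy, rfl⟩
      show _ ∈ (Monoid.Coprod.lift f g).ker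
      rw [MonoidHom.mem_ker, map_mul, map_inv, Monoid.Coprod.lift_apply_inl,
        Monoid.Coprod.lift_apply_inr, mul_inv_eq_one]
      exact h x y hx hxy
    intro a ha
    exact h1 ha)

theorem lft_il {H : Type} [Group H] (f : L₁ →* H) (g : L₂ →* H)
    (h : ∀ (x : L₁) (y : L₂), (x : G) ∈ D → (x : G) = y → f x = g y) (x : L₁) :
    lft f g h (il L₁ L₂ D x) = f x := by
  show (QuotientGroup.lift _ (Monoid.Coprod.lift f g) _) (QuotientGroup.mk _) = f x
  rw [QuotientGroup.lift_mk, Monoid.Coprod.lift_apply_inl]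

theorem lft_ir {H : Type} [Group H] (f : L₁ →* H) (g : L₂ →* H)
    (h : ∀ (x : L₁) (y : L₂), (x : G) ∈ D → (x : G) = y → f x = g y) (y : L₂) :
    lft f g h (ir L₁ L₂ D y) = g y := by
  show (QuotientGroup.lift _ (Monoid.Coprod.lift f g) _) (QuotientGroup.mk _) = g y
  rw [QuotientGroup.lift_mk, Monoid.Coprod.lift_apply_inr]

theorem hext {H : Type} [Group H] {f g : Gi L₁ L₂ D →* H}
    (h1 : ∀ x, f (il L₁ L₂ D x) = g (il L₁ L₂ D x))
    (h2 : ∀ y, f (ir L₁ L₂ D y) = g (ir L₁ L₂ D y)) : f = g := by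
  apply QuotientGroup.monoidHom_ext
  apply Monoid.Coprod.hom_ext
  · ext x
    exact h1 x
  · ext y
    exact h2 y

theorem gen : (il L₁ L₂ D).range ⊔ (ir L₁ L₂ D).range = ⊤ := by
  have e1 : (il L₁ L₂ D).range = (Monoid.Coprod.inl : L₁ →* Monoid.Coprod L₁ L₂).range.map
      (QuotientGroup.mk' (Subgroup.normalClosure (rel L₁ L₂ D))) :=
    MonoidHom.range_comp _ _
  have e2 : (ir L₁ L₂ D).range = (Monoid.Coprod.inr : L₂ →* Monoid.Coprod L₁ L₂).range.map
      (QuotientGroup.mk' (Subgroup.normalClosure (rel L₁ L₂ D))) :=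
    MonoidHom.range_comp _ _
  rw [e1, e2, ← Subgroup.map_sup, Monoid.Coprod.range_inl_sup_range_inr]
  exact Subgroup.map_top_of_surjective _ (QuotientGroup.mk'_surjective _)

/-- the image of the amalgamated elements -/
def KK (L₁ L₂ : Subgroup G) (D : Set G) : Subgroup (Gi L₁ L₂ D) :=
  Subgroup.closure {c | ∃ (x : L₁) (y : L₂), (x : G) ∈ D ∧ (x : G) = y ∧ c = il L₁ L₂ D x}

theorem amg : Amg (il L₁ L₂ D).range (ir L₁ L₂ D).range (KK L₁ L₂ D) where
  le_left := by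
    rw [KK, Subgroup.closure_le]
    rintro c ⟨x, y, _, _, rfl⟩
    exact ⟨x, rfl⟩
  le_right := by
    rw [KK, Subgroup.closure_le]
    rintro c ⟨x, y, hx, hxy, rfl⟩
    exact ⟨y, (il_eq_ir x y hx hxy).symm⟩
  gen := gen
  univ := by
    intro H _ f g hfg
    have hcomp : ∀ (x : L₁) (y : L₂), (x : G) ∈ D → (x : G) = y →
        (f.comp (il L₁ L₂ D).rangeRestrict) x = (g.comp (ir L₁ L₂ D).rangeRestrict) y := by
      intro x y hx hxy
      have hc : il L₁ L₂ D x ∈ KK L₁ L₂ D := Subgroup.subset_closure ⟨x, y, hx, hxy, rfl⟩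
      have h1 := hfg _ hc
      have h2 : (⟨il L₁ L₂ D x, ⟨y, (il_eq_ir x y hx hxy).symm⟩⟩ : (ir L₁ L₂ D).range) =
          (ir L₁ L₂ D).rangeRestrict y := Subtype.ext (il_eq_ir x y hx hxy)
      exact h1.trans (congrArg g h2)
    refine ⟨lft _ _ hcomp, ?_, ?_⟩
    · rintro ⟨_, x, rfl⟩
      exact lft_il _ _ hcomp x
    · rintro ⟨_, y, rfl⟩
      exact lft_ir _ _ hcomp y

theorem C_piece (hAM : S_AM) (C : ∀ (G : Type) [Group G], Prop) (hC : ClosedE C) {E F D : Set G}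
    (h : AmgPiece C E F D) :
    C (Gi (Subgroup.closure (E ∪ D)) (Subgroup.closure (F ∪ D)) D) := by
  obtain ⟨P, iP, f, g, hP, hf, hg, hfg⟩ := h
  refine hAM C hC _ P _ _ _ amg (lft f g hfg) ?_ ?_ hP
  · rintro _ ⟨x, rfl⟩ h1
    rw [lft_il] at h1
    have h2 : x = 1 := hf (h1.trans (map_one f).symm)
    rw [h2, map_one]
  · rintro _ ⟨y, rfl⟩ h1
    rw [lft_ir] at h1
    have h2 : y = 1 := hg (h1.trans (map_one g).symm)
    rw [h2, map_one]

/-- transition maps -/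
def tr {L₁ L₂ M₁ M₂ : Subgroup G} {D D' : Set G} (h1 : L₁ ≤ M₁) (h2 : L₂ ≤ M₂) (h3 : D ⊆ D') :
    Gi L₁ L₂ D →* Gi M₁ M₂ D' :=
  lft ((il M₁ M₂ D').comp (Subgroup.inclusion h1)) ((ir M₁ M₂ D').comp (Subgroup.inclusion h2))
    (fun _ _ hx hxy => il_eq_ir _ _ (h3 hx) hxy)

theorem tr_il {L₁ L₂ M₁ M₂ : Subgroup G} {D D' : Set G} (h1 : L₁ ≤ M₁) (h2 : L₂ ≤ M₂)
    (h3 : D ⊆ D') (x : L₁) :
    tr h1 h2 h3 (il L₁ L₂ D x) = il M₁ M₂ D' (Subgroup.inclusion h1 x) := lft_il _ _ _ x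

theorem tr_ir {L₁ L₂ M₁ M₂ : Subgroup G} {D D' : Set G} (h1 : L₁ ≤ M₁) (h2 : L₂ ≤ M₂)
    (h3 : D ⊆ D') (x : L₂) :
    tr h1 h2 h3 (ir L₁ L₂ D x) = ir M₁ M₂ D' (Subgroup.inclusion h2 x) := lft_ir _ _ _ x

/-- the map to the group -/
def toG (L₁ L₂ : Subgroup G) (D : Set G) : Gi L₁ L₂ D →* G :=
  lft L₁.subtype L₂.subtype (fun _ _ _ h => h)

theorem toG_il (x : L₁) : toG L₁ L₂ D (il L₁ L₂ D x) = x := lft_il _ _ _ x

theorem toG_ir (x : L₂) : toG L₁ L₂ D (ir L₁ L₂ D x) = x := lft_ir _ _ _ x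

end piece

section system

variable {G : Type} [Group G] (A B K : Subgroup G)

/-- the index set -/
abbrev Ix : Type := Finset A × Finset B × Finset K

variable {A B K}

/-- generators of the first factor -/
def E1 (i : Ix A B K) : Set G := Subtype.val '' (i.1 : Set A)

/-- generators of the second factor -/
def E2 (i : Ix A B K) : Set G := Subtype.val '' (i.2.1 : Set B)

/-- amalgamated elements -/
def E3 (i : Ix A B K) : Set G := Subtype.val '' (i.2.2 : Set K)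

/-- first factor -/
def F1 (i : Ix A B K) : Subgroup G := Subgroup.closure (E1 i ∪ E3 i)

/-- second factor -/
def F2 (i : Ix A B K) : Subgroup G := Subgroup.closure (E2 i ∪ E3 i)

theorem E1_mono {i j : Ix A B K} (h : i ≤ j) : E1 i ⊆ E1 j :=
  Set.image_mono (Finset.coe_subset.2 h.1)

theorem E2_mono {i j : Ix A B K} (h : i ≤ j) : E2 i ⊆ E2 j :=
  Set.image_mono (Finset.coe_subset.2 h.2.1)

theorem E3_mono {i j : Ix A B K} (h : i ≤ j) : E3 i ⊆ E3 j :=
  Set.image_mono (Finset.coe_subset.2 h.2.2)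

theorem F1_mono {i j : Ix A B K} (h : i ≤ j) : F1 i ≤ F1 j :=
  Subgroup.closure_mono (Set.union_subset_union (E1_mono h) (E3_mono h))

theorem F2_mono {i j : Ix A B K} (h : i ≤ j) : F2 i ≤ F2 j :=
  Subgroup.closure_mono (Set.union_subset_union (E2_mono h) (E3_mono h))

/-- the groups of the system -/
abbrev X (i : Ix A B K) : Type := Gi (F1 i) (F2 i) (E3 i)

/-- the maps of the system -/
def ff (i j : Ix A B K) (h : i ≤ j) : X i →* X j := tr (F1_mono h) (F2_mono h) (E3_mono h)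

theorem ff_self (i : Ix A B K) (h : i ≤ i) (x : X i) : ff i i h x = x := by
  have h1 : ff i i h = MonoidHom.id _ := by
    apply hext
    · intro x; exact tr_il _ _ _ x
    · intro x; exact tr_ir _ _ _ x
  rw [h1]; rfl

theorem ff_ff (i j k : Ix A B K) (h : i ≤ j) (h' : j ≤ k) (x : X i) :
    ff j k h' (ff i j h x) = ff i k (h.trans h') x := by
  have h1 : (ff j k h').comp (ff i j h) = ff i k (h.trans h') := by
    apply hext
    · intro x
      show ff j k h' (ff i j h (il _ _ _ x)) = _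
      unfold ff
      rw [tr_il, tr_il, tr_il]
      rfl
    · intro x
      show ff j k h' (ff i j h (ir _ _ _ x)) = _
      unfold ff
      rw [tr_ir, tr_ir, tr_ir]
      rfl
  exact DFunLike.congr_fun h1 x

theorem toG_ff (i j : Ix A B K) (h : i ≤ j) (x : X i) :
    toG (F1 j) (F2 j) (E3 j) (ff i j h x) = toG (F1 i) (F2 i) (E3 i) x := by
  have h1 : (toG (F1 j) (F2 j) (E3 j)).comp (ff i j h) = toG (F1 i) (F2 i) (E3 i) := by
    apply hext
    · intro x
      show toG _ _ _ (ff i j h (il _ _ _ x)) = _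
      unfold ff
      rw [tr_il, toG_il, toG_il]
      rfl
    · intro x
      show toG _ _ _ (ff i j h (ir _ _ _ x)) = _
      unfold ff
      rw [tr_ir, toG_ir, toG_ir]
      rfl
  exact DFunLike.congr_fun h1 x

instance : DirectedSystem (X (A := A) (B := B) (K := K)) (fun i j h => ff i j h) where
  map_self i x := ff_self i _ x
  map_map k j i h h' x := ff_ff i j k h h' x

open Classical in
instance : IsDirectedOrder (Ix A B K) := inferInstance

variable (A B K) in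
/-- the direct limit -/
abbrev LL : Type := DirectLimit (X (A := A) (B := B) (K := K)) (ff (A := A) (B := B) (K := K))

/-- the maps to the direct limit -/
noncomputable def gg (i : Ix A B K) : X i →* LL A B K where
  toFun x := ⟦⟨i, x⟩⟧
  map_one' := (DirectLimit.one_def i).symm
  map_mul' x y := (DirectLimit.mul_def i x y).symm

theorem gg_ff (i j : Ix A B K) (h : i ≤ j) (x : X i) : gg j (ff i j h x) = gg i x :=
  DirectLimit.mk_apply i j x h

theorem gg_il (i j : Ix A B K) (a : G) (hi : a ∈ F1 i) (hj : a ∈ F1 j) :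
    gg i (il _ _ _ ⟨a, hi⟩) = gg j (il _ _ _ ⟨a, hj⟩) := by
  obtain ⟨k, hik, hjk⟩ := exists_ge_ge i j
  rw [← gg_ff i k hik, ← gg_ff j k hjk]
  unfold ff
  rw [tr_il, tr_il]
  rfl

theorem gg_ir (i j : Ix A B K) (a : G) (hi : a ∈ F2 i) (hj : a ∈ F2 j) :
    gg i (ir _ _ _ ⟨a, hi⟩) = gg j (ir _ _ _ ⟨a, hj⟩) := by
  obtain ⟨k, hik, hjk⟩ := exists_ge_ge i j
  rw [← gg_ff i k hik, ← gg_ff j k hjk]
  unfold ff
  rw [tr_ir, tr_ir]
  rfl

theorem mem_F1 (i : Ix A B K) (a : A) (h : a ∈ i.1) : (a : G) ∈ F1 i :=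
  Subgroup.subset_closure (Or.inl ⟨a, h, rfl⟩)

theorem mem_F2 (i : Ix A B K) (a : B) (h : a ∈ i.2.1) : (a : G) ∈ F2 i :=
  Subgroup.subset_closure (Or.inl ⟨a, h, rfl⟩)

theorem mem_F13 (i : Ix A B K) (a : K) (h : a ∈ i.2.2) : (a : G) ∈ F1 i :=
  Subgroup.subset_closure (Or.inr ⟨a, h, rfl⟩)

theorem mem_F23 (i : Ix A B K) (a : K) (h : a ∈ i.2.2) : (a : G) ∈ F2 i :=
  Subgroup.subset_closure (Or.inr ⟨a, h, rfl⟩)

/-- the map from the first factor -/
noncomputable def fA : A →* LL A B K :=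
  MonoidHom.mk' (fun a => gg ({a}, ∅, ∅) (il _ _ _ ⟨a, mem_F1 _ a (Finset.mem_singleton_self a)⟩))
    (by
      classical
      intro a b
      have ha : (a : G) ∈ F1 (({a, b}, ∅, ∅) : Ix A B K) := mem_F1 _ a (by simp)
      have hb : (b : G) ∈ F1 (({a, b}, ∅, ∅) : Ix A B K) := mem_F1 _ b (by simp)
      have hab : ((a * b : A) : G) ∈ F1 (({a, b}, ∅, ∅) : Ix A B K) := mul_mem ha hb
      rw [gg_il _ (({a, b}, ∅, ∅) : Ix A B K) a _ ha, gg_il _ (({a, b}, ∅, ∅) : Ix A B K) b _ hb,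
        gg_il _ (({a, b}, ∅, ∅) : Ix A B K) _ _ hab, ← map_mul, ← map_mul]
      rfl)

/-- the map from the second factor -/
noncomputable def fB : B →* LL A B K :=
  MonoidHom.mk' (fun a => gg (∅, {a}, ∅) (ir _ _ _ ⟨a, mem_F2 _ a (Finset.mem_singleton_self a)⟩))
    (by
      classical
      intro a b
      have ha : (a : G) ∈ F2 ((∅, {a, b}, ∅) : Ix A B K) := mem_F2 _ a (by simp)
      have hb : (b : G) ∈ F2 ((∅, {a, b}, ∅) : Ix A B K) := mem_F2 _ b (by simp)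
      have hab : ((a * b : B) : G) ∈ F2 ((∅, {a, b}, ∅) : Ix A B K) := mul_mem ha hb
      rw [gg_ir _ ((∅, {a, b}, ∅) : Ix A B K) a _ ha, gg_ir _ ((∅, {a, b}, ∅) : Ix A B K) b _ hb,
        gg_ir _ ((∅, {a, b}, ∅) : Ix A B K) _ _ hab, ← map_mul, ← map_mul]
      rfl)

theorem fA_apply (a : A) : (fA a : LL A B K) =
    gg (({a}, ∅, ∅) : Ix A B K) (il _ _ _ ⟨a, mem_F1 _ a (Finset.mem_singleton_self a)⟩) := rfl

theorem fB_apply (b : B) : (fB b : LL A B K) =
    gg ((∅, {b}, ∅) : Ix A B K) (ir _ _ _ ⟨b, mem_F2 _ b (Finset.mem_singleton_self b)⟩) := rfl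

theorem fA_eq (i : Ix A B K) (a : A) (h : (a : G) ∈ F1 i) :
    (fA a : LL A B K) = gg i (il (F1 i) (F2 i) (E3 i) ⟨a, h⟩) :=
  (fA_apply a).trans (gg_il (({a}, ∅, ∅) : Ix A B K) i (a : G)
    (mem_F1 _ a (Finset.mem_singleton_self a)) h)

theorem fB_eq (i : Ix A B K) (b : B) (h : (b : G) ∈ F2 i) :
    (fB b : LL A B K) = gg i (ir (F1 i) (F2 i) (E3 i) ⟨b, h⟩) :=
  (fB_apply b).trans (gg_ir ((∅, {b}, ∅) : Ix A B K) i (b : G)
    (mem_F2 _ b (Finset.mem_singleton_self b)) h)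

theorem fA_fB (h : Amg A B K) (c : G) (hc : c ∈ K) :
    (fA ⟨c, h.le_left hc⟩ : LL A B K) = fB ⟨c, h.le_right hc⟩ := by
  obtain ⟨i, hi⟩ : ∃ i : Ix A B K, (⟨c, hc⟩ : K) ∈ i.2.2 :=
    ⟨(∅, ∅, {⟨c, hc⟩}), Finset.mem_singleton_self _⟩
  have h1 : c ∈ F1 i := mem_F13 i ⟨c, hc⟩ hi
  have h2 : c ∈ F2 i := mem_F23 i ⟨c, hc⟩ hi
  have h3 : c ∈ E3 i := ⟨⟨c, hc⟩, hi, rfl⟩
  rw [fA_eq i ⟨c, h.le_left hc⟩ h1, fB_eq i ⟨c, h.le_right hc⟩ h2]
  exact congrArg (gg i) (il_eq_ir (D := E3 i) (⟨c, h1⟩ : F1 i) (⟨c, h2⟩ : F2 i) h3 rfl)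

/-- the map back to the group -/
noncomputable def bk : LL A B K → G :=
  DirectLimit.lift _ (fun i x => toG (F1 i) (F2 i) (E3 i) x) (fun i j h x => (toG_ff i j h x).symm)

theorem bk_gg (i : Ix A B K) (x : X i) : bk (gg i x) = toG (F1 i) (F2 i) (E3 i) x := rfl

/-- the map back to the group, a homomorphism -/
noncomputable def bkH : LL A B K →* G :=
  MonoidHom.mk' bk (by
    refine DirectLimit.induction₂ _ fun i x y => ?_
    rw [DirectLimit.mul_def]
    exact map_mul (toG (F1 i) (F2 i) (E3 i)) x y)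

theorem bkH_gg (i : Ix A B K) (x : X i) : bkH (gg i x) = toG (F1 i) (F2 i) (E3 i) x := rfl

theorem bkH_fA (a : A) : bkH (fA a : LL A B K) = (a : G) := by
  rw [fA_apply, bkH_gg, toG_il]

theorem bkH_fB (b : B) : bkH (fB b : LL A B K) = (b : G) := by
  rw [fB_apply, bkH_gg, toG_ir]

theorem C_LL (hAM : S_AM) (C : ∀ (G : Type) [Group G], Prop) (hC : ClosedE C)
    (hp : ∀ E F D : Set G, E.Finite → F.Finite → D.Finite → E ⊆ A → F ⊆ B → D ⊆ K →
      AmgPiece C E F D) : C (LL A B K) := by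
  refine hC.base.colim (Ix A B K) (fun i j => exists_ge_ge i j) X ff (LL A B K) gg ff_self ff_ff gg_ff
    ?_ ?_ ?_
  · intro y
    obtain ⟨i, x, rfl⟩ := DirectLimit.exists_eq_mk _ y
    exact ⟨i, x, rfl⟩
  · intro i x hx
    obtain ⟨j, h, hj⟩ := (DirectLimit.exists_eq_one (f := ff (A := A) (B := B) (K := K)) ⟨i, x⟩).1 hx
    exact ⟨j, h, hj⟩
  · intro i
    refine C_piece hAM C hC (hp (E1 i) (E2 i) (E3 i) ?_ ?_ ?_ ?_ ?_ ?_)
    · exact (Finset.finite_toSet _).image _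
    · exact (Finset.finite_toSet _).image _
    · exact (Finset.finite_toSet _).image _
    · rintro _ ⟨a, _, rfl⟩; exact a.2
    · rintro _ ⟨a, _, rfl⟩; exact a.2
    · rintro _ ⟨a, _, rfl⟩; exact a.2

end system

/-- **the local criterion for amalgamated products** -/
theorem t_amc (hAM : S_AM) : S_AMC := by
  intro C hC G _ A B K hA
  constructor
  · intro hG E F D _ _ _ _ _ _
    exact ⟨G, inferInstance, Subgroup.subtype _, Subgroup.subtype _, hG, Subtype.val_injective,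
      Subtype.val_injective, fun _ _ _ h => h⟩
  · intro hp
    obtain ⟨φ, h1, h2⟩ := hA.univ (LL A B K) fA fB (fA_fB hA)
    refine hC.base.of_injective G (LL A B K) φ ?_ (C_LL hAM C hC hp)
    have h3 : bkH.comp φ = MonoidHom.id G := by
      have h4 : (⊤ : Subgroup G) ≤ MonoidHom.eqLocus (bkH.comp φ) (MonoidHom.id G) := by
        rw [← hA.gen]
        apply sup_le
        · intro a ha
          show bkH (φ a) = a
          have h5 : φ a = fA ⟨a, ha⟩ := h1 ⟨a, ha⟩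
          rw [h5, bkH_fA]
        · intro b hb
          show bkH (φ b) = b
          have h5 : φ b = fB ⟨b, hb⟩ := h2 ⟨b, hb⟩
          rw [h5, bkH_fB]
      ext x
      exact h4 (Subgroup.mem_top x)
    intro x y hxy
    have h5 := DFunLike.congr_fun h3 x
    have h6 := DFunLike.congr_fun h3 y
    have h7 : bkH (φ x) = x := h5
    have h8 : bkH (φ y) = y := h6
    rw [← h7, ← h8, hxy]

end Pool.Agent.Y917.FJ
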